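import Pool.Agent.H.MP_a8ba19.C

set_option autoImplicit false

namespace Pool.Agent.Results.MP_a8ba19_gt.NotSubmetrizable

theorem result : ∃ (G : Type) (τ : TopologicalSpace G), T3Space G ∧
    (∃ (e : G) (φ : G × G ≃ₜ G × G),
      (∀ x : G, φ '' ({x} ×ˢ Set.univ) = {x} ×ˢ Set.univ) ∧ ∀ x : G, φ (x, x) = (x, e)) ∧
    (∀ x : G, ∃ U : ℕ → Set G, (∀ n, IsOpen (U n)) ∧ {x} = ⋂ n, U n) ∧
    ¬ ∃ σ : TopologicalSpace G, (∀ U : Set G, σ.IsOpen U → τ.IsOpen U) ∧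
      @TopologicalSpace.MetrizableSpace G σ := by
  open Pool.Agent.H.MP_a8ba19 in
  have t1 : T1Space Z := t1Space_iff_exists_open.2 fun x y h => by
    obtain ⟨U, h1, h2⟩ := gd x
    obtain ⟨n, hn⟩ : ∃ n, y ∉ U n := by
      by_contra! H
      exact h (show y ∈ ({x} : Set Z) from h2 ▸ Set.mem_iInter.2 H).symm
    exact ⟨U n, h1 n, Set.mem_iInter.1 (h2 ▸ Set.mem_singleton x) n, hn⟩
  open Pool.Agent.H.MP_a8ba19 in
  have t3 : RegularSpace Z := reg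
  open Pool.Agent.H.MP_a8ba19 in
  refine ⟨Z, inferInstance, {}, rect, gd, fun ⟨σ, h1, h2⟩ => ?_⟩
  exact @Pool.Agent.H.MP_a8ba19.nm _ (@TopologicalSpace.metrizableSpaceMetric _ σ h2) id
    (continuous_id_of_le h1) Function.injective_id

end Pool.Agent.Results.MP_a8ba19_gt.NotSubmetrizable
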